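import Pool.Agent.H26.ES.Targets
import Pool.Agent.H31.PL.JEC

/-!
# Row JEP (MP_e21eee_nt): Jensen's inequality over the pool
-/

set_option autoImplicit false

open Finset MeasureTheory

namespace Pool.Agent.H31.ES

open Pool.Agent.H24.CL Pool.Agent.H24.LV Pool.Agent.H22.LVP Pool.Agent.H26.ES

theorem pf_JEP (hST : T_STP) : T_JEP := by
  intro k hk Q V Gd ρ Ω n hρ hρ1 hΩ hn hQ hV hGd hinv huni hVΩ hmass hbig
  obtain ⟨G, hGm, hGb, hG1, hG2⟩ := hST k Q V Gd hk hQ hV hGd hinv huni
  obtain ⟨S, hSQ, hSn, hS⟩ := Pool.Agent.H31.PL.jec Q V G ρ Ω n hρ hΩ hn hQ hGm hGb hVΩ (by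
    intro p hp
    refine le_trans (hmass p hp) (le_of_eq ?_)
    have hp0 : 0 < p := (hQ p hp).pos
    have h2 : ∀ x ∈ range p, ∫ w in V, G p x w = (p : ℝ) ^ (KN k - k) *
        volume.real {a : X k | a ∈ Gd p x ∧ phi p x a ∈ V} := by
      intro x hx
      have hcont := (Pool.Agent.H75.CLV.pf_MP k p x hp0).1.measurable
      have h3 := hG1 p hp x (Finset.mem_range.mp hx) (V.indicator (fun _ => (1 : ℝ))) 1
        (measurable_const.indicator hV) (fun a => by
          by_cases ha : a ∈ V
          · rw [Set.indicator_of_mem ha]; simp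
          · rw [Set.indicator_of_notMem ha]; simp)
      have h4 : ∫ w, V.indicator (fun _ => (1 : ℝ)) w * G p x w = ∫ w in V, G p x w := by
        rw [← integral_indicator hV]
        apply integral_congr_ae
        apply Filter.Eventually.of_forall
        intro w
        by_cases hw : w ∈ V
        · simp [hw]
        · simp [hw]
      have h5 : ∫ a in Gd p x, V.indicator (fun _ => (1 : ℝ)) (phi p x a) =
          volume.real {a : X k | a ∈ Gd p x ∧ phi p x a ∈ V} := by
        have e1 : ∀ a : X k, V.indicator (fun _ => (1 : ℝ)) (phi p x a) =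
            ((phi p x) ⁻¹' V).indicator (fun _ => (1 : ℝ)) a := by
          intro a
          rfl
        rw [integral_congr_ae (Filter.Eventually.of_forall e1),
          integral_indicator (hcont hV), setIntegral_const, smul_eq_mul, mul_one]
        rw [measureReal_restrict_apply (hcont hV)]
        congr 1
        ext a
        simp only [Set.mem_inter_iff, Set.mem_preimage, Set.mem_setOf_eq]
        exact and_comm
      rw [← h4, ← h3, h5]
    rw [Finset.sum_congr rfl h2, ← Finset.mul_sum]
    ring) hbig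
  refine ⟨S, hSQ, hSn, ?_⟩
  refine le_trans hS (le_of_eq ?_)
  congr 1
  unfold mass
  have e2 : (DS S : ℝ) ^ (KN k - k) * ((1 / (DS S : ℝ)) * ∑ x ∈ range (DS S),
      volume.real {b : X k | StarP S V Gd b x}) = (1 / (DS S : ℝ)) * ∑ x ∈ range (DS S),
        ∫ w in V, ∏ p ∈ S, G p (x / (DS S / p)) w := by
    rw [mul_left_comm, Finset.mul_sum]
    congr 1
    apply Finset.sum_congr rfl
    intro x hx
    exact hG2 S hSQ x (Finset.mem_range.mp hx)
  exact e2.symm

end Pool.Agent.H31.ES
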