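import Pool.Agent.H26.ES.Targets
import Pool.Agent.H56.LVP.ST

/-!
# Row STP (MP_e21eee_nt): the mass of the stars as an integral over the points
-/

set_option autoImplicit false

open Finset MeasureTheory

namespace Pool.Agent.H31.ES

open Pool.Agent.H24.CL Pool.Agent.H24.LV Pool.Agent.H56.LVP Pool.Agent.H26.ES

/-- at most one good line modulo `H k p 1`: at most `p ^ k` lines -/
theorem nn_le_uni {k p y : ℕ} (hp : 1 ≤ p) {G : ℕ → Set (X k)} (hCO : L_CO) (hy : y < p)
    (hU : Uni k p G) (c : X k) : nn k p y (G y) c ≤ (p : ℝ) ^ k := by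
  classical
  obtain ⟨-, hker⟩ := hCO.2.2.2.1 k p y hp
  set Z : Finset (X k) := (Kr k p y).filter fun κ => c + κ ∈ G y with hZ
  have hnn : nn k p y (G y) c = (Z.card : ℝ) := by
    unfold nn
    rw [Finset.sum_ite, Finset.sum_const_zero, add_zero, Finset.sum_const, nsmul_eq_mul, mul_one]
  rw [hnn]
  rcases Z.eq_empty_or_nonempty with h0 | ⟨z0, hz0⟩
  · rw [h0]
    simp
  · have hHF : (HF k p 1).card = p ^ (1 * k) := (rTO k p hp).2.2.1 1
    rw [one_mul] at hHF
    have h1 : Z.card ≤ (HF k p 1).card := by
      refine Finset.card_le_card_of_injOn (fun z => z - z0) ?_ ?_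
      · intro z hz
        rw [Finset.mem_coe, hZ, Finset.mem_filter] at hz
        rw [hZ, Finset.mem_filter] at hz0
        refine Finset.mem_coe.2 (((rTO k p hp).2.1 1 _).2 ?_)
        have h2 := hU y hy (c + z) hz.2 (c + z0) hz0.2 (by
          rw [map_add, map_add, (hker z).1 hz.1, (hker z0).1 hz0.1])
        have h3 : c + z - (c + z0) = z - z0 := by abel
        rwa [h3] at h2
      · intro z _ z' _ h
        exact sub_left_injective h
    rw [hHF] at h1
    exact_mod_cast h1

open Classical in
theorem pf_STP (hSC : L_SC) (hCO : L_CO) : T_STP := by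
  intro k Q V Gd hk hQ hV hG hinv huni
  have hex : ∀ p x : ℕ, ∃ s : X k → X k, p ∈ Q → (Measurable s ∧ (∀ w, phi p x (s w) = w) ∧
      ∀ (F : X k → ℝ) (B : ℝ), Measurable F → (∀ a, |F a| ≤ B) →
      (p : ℝ) ^ (KN k) * ∫ a, F a = ∫ w, ∑ κ ∈ Kr k p x, F (s w + κ)) := by
    intro p x
    by_cases hp : p ∈ Q
    · obtain ⟨s, h⟩ := hSC k p x (hQ p hp).one_le
      exact ⟨s, fun _ => h⟩
    · exact ⟨id, fun h => absurd h hp⟩
  choose s hs using hex
  refine ⟨fun p x w => if p ∈ Q ∧ x < p then nn k p x (Gd p x) (s p x w) / (p : ℝ) ^ k else 0,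
    ?_, ?_, ?_, ?_⟩
  · intro p x
    by_cases hp : p ∈ Q ∧ x < p
    · simp only [if_pos hp]
      exact (nn_meas (hG p hp.1 x) (hs p x hp.1).1).div_const _
    · simp only [if_neg hp]
      exact measurable_const
  · intro p x w
    by_cases hp : p ∈ Q ∧ x < p
    · simp only [if_pos hp]
      have hp0 : (0 : ℝ) < (p : ℝ) ^ k := by
        have : (0 : ℝ) < p := by exact_mod_cast (hQ p hp.1).pos
        positivity
      refine ⟨div_nonneg nn_nonneg hp0.le, ?_⟩
      rw [div_le_one hp0]
      exact nn_le_uni (hQ p hp.1).one_le hCO hp.2 (huni p hp.1) _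
    · simp only [if_neg hp]
      exact ⟨le_rfl, zero_le_one⟩
  · intro p hp x hx F B hF hB
    simp only [if_pos (And.intro hp hx)]
    obtain ⟨hsm, hsw, hsi⟩ := hs p x hp
    have hp1 : 1 ≤ p := (hQ p hp).one_le
    have hp0 : (0 : ℝ) < (p : ℝ) ^ k := by
      have : (0 : ℝ) < p := by exact_mod_cast (hQ p hp).pos
      positivity
    obtain ⟨-, hker⟩ := hCO.2.2.2.1 k p x hp1
    have h1 := hsi ((Gd p x).indicator fun a => F (phi p x a)) B
      ((hF.comp (phi_meas p x hp1)).indicator (hG p hp x)) (by
        intro a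
        by_cases ha : a ∈ Gd p x
        · rw [Set.indicator_of_mem ha]
          exact hB _
        · rw [Set.indicator_of_notMem ha, abs_zero]
          exact (abs_nonneg _).trans (hB 0))
    rw [integral_indicator (hG p hp x), pow_KN hk] at h1
    have h2 : ∀ w, ∑ κ ∈ Kr k p x, (Gd p x).indicator (fun a => F (phi p x a)) (s p x w + κ) =
        F w * nn k p x (Gd p x) (s p x w) := by
      intro w
      unfold nn
      rw [Finset.mul_sum]
      refine Finset.sum_congr rfl fun κ hκ => ?_
      have hk0 := (hker κ).1 hκ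
      by_cases ha : s p x w + κ ∈ Gd p x
      · rw [Set.indicator_of_mem ha, if_pos ha, map_add, hsw, hk0, add_zero, mul_one]
      · rw [Set.indicator_of_notMem ha, if_neg ha, mul_zero]
    rw [integral_congr_ae (Filter.Eventually.of_forall h2)] at h1
    have h3 : ∀ w, F w * (nn k p x (Gd p x) (s p x w) / (p : ℝ) ^ k) =
        (F w * nn k p x (Gd p x) (s p x w)) * ((p : ℝ) ^ k)⁻¹ := by
      intro w
      rw [div_eq_mul_inv, mul_assoc]
    rw [integral_congr_ae (Filter.Eventually.of_forall h3), integral_mul_const, ← h1]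
    field_simp
  · intro S hSQ x hx
    have hS : ∀ p ∈ S, p.Prime := fun p hp => hQ p (hSQ hp)
    have hD := DS_pos hS
    have hD0 : (0 : ℝ) < (DS S : ℝ) ^ k := by
      have : (0 : ℝ) < DS S := by exact_mod_cast hD
      positivity
    have hxp : ∀ p ∈ S, x / (DS S / p) < p := by
      intro p hp
      refine Nat.div_lt_of_lt_mul ?_
      rw [mul_comm, (DS_div hS hp).1]
      exact hx
    set Gx : ℕ → Set (X k) := fun p => Gd p (x / (DS S / p)) with hGx
    have hstar : ∀ b : X k, StarP S V Gd b x ↔ Star S V Gx b x := fun b => Iff.rfl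
    have hset : {b : X k | StarP S V Gd b x} = {b : X k | Star S V Gx b x} := by
      ext b
      exact hstar b
    rw [hset]
    obtain ⟨t, htm, htw, hti⟩ := hSC k (DS S) x hD
    have hmS := Star_meas (k := k) hS hV (Gd := Gx) (fun p hp => hG p (hSQ hp) _) x
    obtain ⟨-, hker⟩ := hCO.2.2.2.1 k (DS S) x hD
    have h1 := hti ({b : X k | Star S V Gx b x}.indicator fun _ => 1) 1
      (measurable_const.indicator hmS) (by
        intro a
        by_cases ha : a ∈ {b : X k | Star S V Gx b x}
        · rw [Set.indicator_of_mem ha, abs_one]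
        · rw [Set.indicator_of_notMem ha, abs_zero]
          norm_num)
    rw [integral_indicator hmS, setIntegral_const, smul_eq_mul, mul_one, pow_KN hk] at h1
    have h2 : ∀ w, ∑ κ ∈ Kr k (DS S) x, ({b : X k | Star S V Gx b x}.indicator
        (fun _ => (1 : ℝ))) (t w + κ) = V.indicator (fun w => (DS S : ℝ) ^ k *
          ∏ p ∈ S, (if p ∈ Q ∧ x / (DS S / p) < p then
            nn k p (x / (DS S / p)) (Gd p (x / (DS S / p))) (s p (x / (DS S / p)) w) /
            (p : ℝ) ^ k else 0)) w := by
      intro w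
      by_cases hw : w ∈ V
      · rw [Set.indicator_of_mem hw]
        have h3 : ∀ κ ∈ Kr k (DS S) x, ({b : X k | Star S V Gx b x}.indicator
            (fun _ => (1 : ℝ))) (t w + κ) =
            if (∀ p ∈ S, phi (DS S / p) (x % (DS S / p)) (t w + κ) ∈ Gx p) then 1 else 0 := by
          intro κ hκ
          have h4 : phi (DS S) x (t w + κ) = w := by
            rw [map_add, htw, (hker κ).1 hκ, add_zero]
          by_cases hall : ∀ p ∈ S, phi (DS S / p) (x % (DS S / p)) (t w + κ) ∈ Gx p
          · rw [if_pos hall, Set.indicator_of_mem]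
            exact ⟨by rw [h4]; exact hw, hall⟩
          · rw [if_neg hall, Set.indicator_of_notMem]
            intro h
            exact hall h.2
        rw [Finset.sum_congr rfl h3, star_count hCO hS]
        have h5 : ∀ p ∈ S, (if p ∈ Q ∧ x / (DS S / p) < p then
            nn k p (x / (DS S / p)) (Gd p (x / (DS S / p)))
            (s p (x / (DS S / p)) w) / (p : ℝ) ^ k else 0) =
            nn k p (x / (DS S / p)) (Gx p) (phi (DS S / p) (x % (DS S / p)) (t w)) *
              ((p : ℝ) ^ k)⁻¹ := by
          intro p hp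
          rw [if_pos ⟨hSQ hp, hxp p hp⟩, div_eq_mul_inv]
          congr 1
          refine nn_shift hCO (hS p hp).one_le _ _ _ ?_
          rw [(hs p _ (hSQ hp)).2.1, phi_comp hCO hS hp, htw]
        rw [Finset.prod_congr rfl h5, Finset.prod_mul_distrib]
        have h6 : ∏ p ∈ S, ((p : ℝ) ^ k)⁻¹ = ((DS S : ℝ) ^ k)⁻¹ := by
          rw [Finset.prod_inv_distrib, Finset.prod_pow, DS]
          push_cast
          rfl
        rw [h6]
        field_simp
      · rw [Set.indicator_of_notMem hw]
        refine Finset.sum_eq_zero fun κ hκ => ?_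
        rw [Set.indicator_of_notMem]
        intro h
        apply hw
        have h4 : phi (DS S) x (t w + κ) = w := by
          rw [map_add, htw, (hker κ).1 hκ, add_zero]
        rw [← h4]
        exact h.1
    rw [integral_congr_ae (Filter.Eventually.of_forall h2), integral_indicator hV,
      integral_const_mul] at h1
    have h7 := mul_left_cancel₀ hD0.ne' ((mul_assoc _ _ _).symm.trans h1)
    exact h7

end Pool.Agent.H31.ES
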